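import Pool.Agent.Helper42.QC.Defs

/-!
# Twisting characters exist
-/

set_option autoImplicit false

namespace Pool.Agent.Helper42.QC

open Pool.Agent.Helper42.QD
open Pool.Agent.Helper42.QD.VD

section
variable {K D k : Type} [Field K] [DivisionRing D] [Field k]

theorem twk_sigA (c : CD K D) (j : ℕ) {x : K} (hx : x ∈ c.A) : c.sig^[j] x ∈ c.A := by
  induction j with
  | zero => exact hx
  | succ j ih =>
    rw [Function.iterate_succ_apply']
    exact c.sigA _ ih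

theorem twk_Tj (c : CD K D) (j : ℕ) (x : K) : c.T ^ j * c.emb x = c.emb (c.sig^[j] x) * c.T ^ j := by
  induction j with
  | zero => simp
  | succ j ih =>
    rw [pow_succ', mul_assoc, ih, ← mul_assoc, c.Tmul, mul_assoc, Function.iterate_succ_apply']

theorem twk_embP (h1 : ST_CO1) (c : CD K D) (c' : VD D k)
    (hP : ∀ (m : ℤ) y, c'.P m y ↔ ∀ i, c.co (c.T ^ (-m) * y) i ∈ c.A) {x : K} (hx : x ∈ c.A) :
    c'.P 0 (c.emb x) := by
  rw [hP]
  intro i
  have h2 := (h1 K D c).2.2.2.2.1 x 0 i (by have := c.d2; omega)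
  rw [pow_zero, mul_one] at h2
  rw [neg_zero, zpow_zero, one_mul, h2]
  split_ifs
  · exact hx
  · exact c.A.zero_mem

theorem twk_P0 (c : CD K D) (c' : VD D k)
    (hP : ∀ (m : ℤ) y, c'.P m y ↔ ∀ i, c.co (c.T ^ (-m) * y) i ∈ c.A) {y : D} (hy : c'.P 0 y) (i : ℕ) :
    c.co y i ∈ c.A := by
  have h := (hP 0 y).1 hy i
  rwa [neg_zero, zpow_zero, one_mul] at h

theorem twk_sum (c' : VD D k) (s : Finset ℕ) (f : ℕ → D) :
    c'.psi (∑ j ∈ s, f j) = ∏ j ∈ s, c'.psi (f j) := by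
  classical
  induction s using Finset.induction_on with
  | empty => simp
  | insert a s ha ih => rw [Finset.sum_insert ha, Finset.prod_insert ha, AddChar.map_add_eq_mul, ih]

/-- an integral element is congruent to its constant coefficient -/
theorem twk_co0 (h1 : ST_CO1) (c : CD K D) (c' : VD D k) (hT : c'.T = c.T)
    (hP : ∀ (m : ℤ) y, c'.P m y ↔ ∀ i, c.co (c.T ^ (-m) * y) i ∈ c.A) {y : D} (hy : c'.P 0 y) :
    c'.P 1 (y - c.emb (c.co y 0)) := by
  obtain ⟨-, hsub, -, -, hemb, -, -, hT1, hT0⟩ := h1 K D c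
  have hd := c.d2
  have hTne : c.T ≠ 0 := hT ▸ c'.T_ne
  have hco := twk_P0 c c' hP hy
  have he : ∀ i, c.co (c.emb (c.co y 0)) i = if i = 0 then c.co y 0 else 0 := by
    intro i
    have h2 := hemb (c.co y 0) 0 i (by omega)
    rwa [pow_zero, mul_one] at h2
  rw [hP]
  intro i
  have hz : c.T * (c.T ^ (-1 : ℤ) * (y - c.emb (c.co y 0))) = y - c.emb (c.co y 0) := by
    rw [← mul_assoc, zpow_neg, zpow_one, mul_inv_cancel₀ hTne, one_mul]
  have hback : ∀ x : K, c.sig x ∈ c.A → x ∈ c.A := by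
    intro x hx
    have h2 := twk_sigA c (c.d - 1) hx
    have h3 : c.sig^[c.d - 1] (c.sig x) = x := by
      have h4 := c.sigd x
      rw [show c.d = (c.d - 1) + 1 by omega, Function.iterate_succ_apply] at h4
      exact h4
    rwa [h3] at h2
  rcases Nat.lt_or_ge (i + 1) c.d with hi | hi
  · apply hback
    rw [← hT1 _ i hi, hz, hsub, he, if_neg (by omega), sub_zero]
    exact hco _
  · rcases Nat.lt_or_ge i c.d with hi' | hi'
    · have hi2 : i = c.d - 1 := by omega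
      have h3 := hT0 (c.T ^ (-1 : ℤ) * (y - c.emb (c.co y 0)))
      rw [hz, hsub, he, if_pos rfl, sub_self] at h3
      have h4 : c.sig (c.co (c.T ^ (-1 : ℤ) * (y - c.emb (c.co y 0))) (c.d - 1)) = 0 := by
        rcases mul_eq_zero.1 h3.symm with h5 | h5
        · exact h5
        · exact absurd h5 c.pine
      rw [hi2]
      apply hback
      rw [h4]
      exact c.A.zero_mem
    · rw [c.co_zero _ _ hi']
      exact c.A.zero_mem

end

/-- Twisting characters exist. -/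
theorem st_TWK (h1 : ST_CO1) (h2 : ST_FIL) (h3 : ST_NRM) (h4 : ST_CHR) (h5 : ST_TR1) : ST_TWK := by
  intro K D k _ _ _ _ c c' hT ho hP h e hh heP hconj
  have hd := c.d2
  have hTne : c.T ≠ 0 := hT ▸ c'.T_ne
  by_cases hcase : c'.P (1 - h) e
  · refine ⟨1, fun _ => rfl, fun g hg => ?_⟩
    have hz : c'.P h ((g.val - 1) 0 0 + (g.val - 1) 1 1) := P_add (hg 0 0) (hg 1 1)
    rw [c'.psi_P _ (P_mul' hcase hz (by omega))]
    rfl
  have hene : e ≠ 0 := ne_of_not_P hcase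
  have hve : c'.v e = -h := by
    have a1 := lt_of_not_P hcase
    have a2 := (P_iff hene).1 heP
    omega
  -- the unit e0
  set e0 : D := e * c.T ^ h with he0
  have hTh : c'.v (c.T ^ h) = h := by
    have a1 := v_T_zpow (c := c') (h : ℤ)
    rw [zpow_natCast, hT] at a1
    exact a1
  have hThne : c.T ^ h ≠ 0 := pow_ne_zero _ hTne
  have he0ne : e0 ≠ 0 := mul_ne_zero hene hThne
  have hve0 : c'.v e0 = 0 := by
    rw [he0, c'.v_mul _ _ hene hThne, hve, hTh]
    omega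
  have he0P : c'.P 0 e0 := Or.inr hve0.ge
  have hinv0 : ∀ {u : D}, u ≠ 0 → c'.v u = 0 → c'.P 0 u⁻¹ := fun {u} hu hv =>
    Or.inr (by rw [v_inv hu, hv]; simp)
  -- d divides h
  have hdvd : c.d ∣ h := by
    have hsg : c'.sg ^ (-(h : ℤ)) = 1 := by
      refine RingEquiv.ext fun b => ?_
      by_cases hb : b = 0
      · rw [hb, map_zero, map_zero]
      obtain ⟨u, hu, hvu, hru⟩ := unit_lift (c := c') b hb
      have a1 := hconj u⁻¹ (inv_ne_zero hu)
      rw [inv_inv] at a1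
      have a2 := P_mul a1 (P_self (c := c') (x := c.T ^ h))
      have a3 : (u⁻¹ * e * u - e) * c.T ^ h =
          u⁻¹ * e0 * (c'.T ^ (-(h : ℤ)) * u * (c'.T ^ (-(h : ℤ)))⁻¹) - e0 := by
        rw [hT, he0, zpow_neg, zpow_natCast, inv_inv, sub_mul]
        congr 1
        simp only [mul_assoc]
        rw [mul_inv_cancel_left₀ hThne]
      rw [a3, hTh] at a2
      have a4 : c'.P 0 (c'.T ^ (-(h : ℤ)) * u * (c'.T ^ (-(h : ℤ)))⁻¹) :=
        P_conj (T_zpow_ne _) (Or.inr hvu.ge)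
      have a5 : c'.P 0 (u⁻¹ * e0) := P_mul' (hinv0 hu hvu) he0P (by omega)
      have a6 := (r_congr (P_mul' a5 a4 (by omega)) he0P).2 (P_mono (by omega) a2)
      rw [c'.r_mul _ _ a5 a4, c'.r_mul _ _ (hinv0 hu hvu) he0P, r_inv hu hvu,
        r_T_zpow (c := c') _ (Or.inr hvu.ge), hru] at a6
      have a7 : c'.r e0 ≠ 0 := r_ne_zero he0ne hve0
      have a8 : b⁻¹ * c'.r e0 * (c'.sg ^ (-(h : ℤ))) b = c'.r e0 := a6
      have a9 : (c'.sg ^ (-(h : ℤ))) b = b := by
        have b1 : (c'.sg ^ (-(h : ℤ))) b = b * (c'.r e0)⁻¹ * (b⁻¹ * c'.r e0 * (c'.sg ^ (-(h : ℤ))) b) := by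
          field_simp
        rw [b1, a8, mul_assoc, inv_mul_cancel₀ a7, mul_one]
      rw [a9]
      rfl
    have a1 := orderOf_dvd_iff_zpow_eq_one.2 hsg
    rw [ho, dvd_neg] at a1
    exact_mod_cast a1
  obtain ⟨m, hm⟩ := hdvd
  have hm0 : 0 < m := by
    rcases Nat.eq_zero_or_pos m with a | a
    · rw [a, mul_zero] at hm
      omega
    · exact a
  have hTpi : c.T ^ h = c.emb (c.pi ^ m) := by
    rw [hm, pow_mul, c.Tpow, map_pow]
  -- invariance of the residue class of e0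
  have hTe0 : ∀ j : ℕ, c'.P 1 (c.T ^ j * e0 * (c.T ^ j)⁻¹ - e0) := by
    intro j
    have a1 := hconj (c.T ^ j) (pow_ne_zero _ hTne)
    have a2 := P_mul a1 (P_self (c := c') (x := c.T ^ h))
    rw [hTh] at a2
    have a3 : (c.T ^ j * e * (c.T ^ j)⁻¹ - e) * c.T ^ h = c.T ^ j * e0 * (c.T ^ j)⁻¹ - e0 := by
      rw [he0, sub_mul]
      congr 1
      have b1 : (c.T ^ j)⁻¹ * c.T ^ h = c.T ^ h * (c.T ^ j)⁻¹ := by
        have b2 : Commute (c.T ^ j) (c.T ^ h) := (Commute.refl c.T).pow_pow j h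
        exact (b2.inv_left₀).eq
      rw [mul_assoc (c.T ^ j * e), b1]
      simp only [mul_assoc]
    rw [a3] at a2
    exact P_mono (by omega) a2
  have hembP := fun {x : K} (hx : x ∈ c.A) => twk_embP h1 c c' hP hx
  have hpiP : c'.P 1 (c.emb c.pi) := by
    rw [← c.Tpow]
    have a1 := v_T_zpow (c := c') (c.d : ℤ)
    rw [zpow_natCast, hT] at a1
    exact Or.inr (by omega)
  obtain ⟨a0, ha0, hsum⟩ := h5 K D c
  -- the additive character xi
  obtain ⟨F, hF⟩ := h4 K D c m (fun s => c'.psi (e0 * c.emb a0 * c.emb s)) hm0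
    (by
      intro x _ y _
      show c'.psi (e0 * c.emb a0 * c.emb (x + y)) = _
      rw [map_add, mul_add, AddChar.map_add_eq_mul])
    (by
      intro x _ hx
      apply c'.psi_P
      have a1 : c.emb x = c.emb (x / c.pi) * c.emb c.pi := by
        rw [← map_mul, div_mul_cancel₀ _ c.pine]
      rw [a1]
      exact P_mul' (P_mul' he0P (hembP ha0) le_rfl) (P_mul' (hembP hx) hpiP le_rfl) (by omega))
  obtain ⟨N, hN1, hN2⟩ := h3 K D c
  refine ⟨F.comp N, fun b => ?_, fun g hg => ?_⟩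
  · rw [MonoidHom.comp_apply, hN1, map_one]
  -- the main computation
  have hInPi : ∀ {y : D}, c'.P h y → c.InPi m y := by
    intro y hy i
    have a1 := (h2 K D c m y).1 (by
      intro i
      have a2 := (hP h y).1 hy i
      rw [hm] at a2
      push_cast at a2
      exact a2) i
    rwa [zpow_natCast] at a1
  set Z : D := (g.val - 1) 0 0 + (g.val - 1) 1 1 with hZ
  have hZP : c'.P h Z := P_add (hg 0 0) (hg 1 1)
  set Z' : D := c.T ^ (-(h : ℤ)) * Z with hZ'
  have hZZ' : Z = c.T ^ h * Z' := by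
    rw [hZ', zpow_neg, zpow_natCast, mul_inv_cancel_left₀ hThne]
  have hZ'P : c'.P 0 Z' := by
    rw [hP]
    intro i
    have a1 := (hP h Z).1 hZP i
    rwa [neg_zero, zpow_zero, one_mul]
  set z : K := c.co Z' 0 with hz
  have hzA : z ∈ c.A := twk_P0 c c' hP hZ'P 0
  have hcoZ : c.co Z 0 = c.pi ^ m * z := by
    rw [hZZ', hTpi, (h1 K D c).2.2.1]
  have hN3 := hN2 m g (fun i j => hInPi (hg i j))
  rw [← hZ, hcoZ] at hN3
  obtain ⟨q, hq, hq2⟩ : ∃ q ∈ c.A, ((N g : Kˣ) : K) - 1 -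
      ∑ j ∈ Finset.range c.d, c.sig^[j] (c.pi ^ m * z) = c.pi ^ (2 * m) * q :=
    ⟨_, hN3, by rw [mul_div_cancel₀]; exact pow_ne_zero _ c.pine⟩
  have hsigpi : ∀ (j : ℕ) (x : K), c.sig^[j] (c.pi ^ m * x) = c.pi ^ m * c.sig^[j] x := by
    intro j x
    induction j with
    | zero => rfl
    | succ j ih =>
      rw [Function.iterate_succ_apply', ih, map_mul, map_pow, c.sigpi, Function.iterate_succ_apply']
  have hNg : ((N g : Kˣ) : K) = 1 + c.pi ^ m *
      ((∑ j ∈ Finset.range c.d, c.sig^[j] z) + c.pi ^ m * q) := by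
    have a1 : ∑ j ∈ Finset.range c.d, c.sig^[j] (c.pi ^ m * z) =
        c.pi ^ m * ∑ j ∈ Finset.range c.d, c.sig^[j] z := by
      rw [Finset.mul_sum]
      exact Finset.sum_congr rfl fun j _ => hsigpi j z
    rw [a1] at hq2
    have a2 : ((N g : Kˣ) : K) = 1 + c.pi ^ m * (∑ j ∈ Finset.range c.d, c.sig^[j] z) +
        c.pi ^ (2 * m) * q := by
      rw [← hq2]
      ring
    rw [a2, two_mul, pow_add]
    ring
  have hpimA : c.pi ^ m ∈ c.A := c.A.pow_mem c.piA m
  have hSA : (∑ j ∈ Finset.range c.d, c.sig^[j] z) ∈ c.A :=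
    c.A.sum_mem fun j _ => twk_sigA c j hzA
  rw [MonoidHom.comp_apply, hF (N g) _ (c.A.add_mem hSA (c.A.mul_mem hpimA hq)) hNg]
  show c'.psi (e0 * c.emb a0 * c.emb ((∑ j ∈ Finset.range c.d, c.sig^[j] z) + c.pi ^ m * q)) =
    c'.psi (e * Z)
  have hA0 : c'.P 0 (e0 * c.emb a0) := P_mul' he0P (hembP ha0) le_rfl
  have s1 : c'.psi (e0 * c.emb a0 * c.emb ((∑ j ∈ Finset.range c.d, c.sig^[j] z) + c.pi ^ m * q)) =
      c'.psi (e0 * c.emb a0 * c.emb (∑ j ∈ Finset.range c.d, c.sig^[j] z)) := by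
    apply psi_congr
    rw [map_add, mul_add, add_sub_cancel_left]
    refine P_mul' hA0 (n := 1) ?_ (by omega)
    have a1 : c.emb (c.pi ^ m * q) = c.emb c.pi * c.emb (c.pi ^ (m - 1) * q) := by
      rw [← map_mul, ← mul_assoc, ← pow_succ', show m - 1 + 1 = m by omega]
    rw [a1]
    exact P_mul' hpiP (hembP (c.A.mul_mem (c.A.pow_mem c.piA _) hq)) (by omega)
  -- the terms
  have s2 : ∀ j ∈ Finset.range c.d, c'.psi (e0 * c.emb a0 * c.emb (c.sig^[j] z)) =
      c'.psi (e0 * c.emb (c.sig^[c.d - j] a0) * c.emb z) := by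
    intro j hj
    have hj' := Finset.mem_range.1 hj
    have hne : c.T ^ (c.d - j) ≠ 0 := pow_ne_zero _ hTne
    have a1 : c'.psi (e0 * c.emb a0 * c.emb (c.sig^[j] z)) =
        c'.psi (c.T ^ (c.d - j) * (e0 * c.emb a0 * c.emb (c.sig^[j] z)) * (c.T ^ (c.d - j))⁻¹) := by
      rw [c'.psi_comm (c.T ^ (c.d - j) * (e0 * c.emb a0 * c.emb (c.sig^[j] z))),
        inv_mul_cancel_left₀ hne]
    have a2 : c.T ^ (c.d - j) * (e0 * c.emb a0 * c.emb (c.sig^[j] z)) * (c.T ^ (c.d - j))⁻¹ =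
        c.T ^ (c.d - j) * e0 * (c.T ^ (c.d - j))⁻¹ * c.emb (c.sig^[c.d - j] a0) * c.emb z := by
      have b1 : c.sig^[c.d - j] (c.sig^[j] z) = z := by
        rw [← Function.iterate_add_apply, show c.d - j + j = c.d by omega, c.sigd]
      have b2 : c.T ^ (c.d - j) * c.emb a0 * (c.T ^ (c.d - j))⁻¹ = c.emb (c.sig^[c.d - j] a0) := by
        rw [twk_Tj, mul_assoc, mul_inv_cancel₀ hne, mul_one]
      have b3 : c.T ^ (c.d - j) * c.emb (c.sig^[j] z) * (c.T ^ (c.d - j))⁻¹ = c.emb z := by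
        rw [twk_Tj, mul_assoc, mul_inv_cancel₀ hne, mul_one, b1]
      rw [← b2, ← b3]
      simp only [mul_assoc]
      rw [inv_mul_cancel_left₀ hne, inv_mul_cancel_left₀ hne]
    rw [a1, a2]
    apply psi_congr
    rw [← sub_mul, ← sub_mul]
    exact P_mul' (P_mul' (hTe0 (c.d - j)) (hembP (twk_sigA c _ ha0)) le_rfl) (hembP hzA) (by omega)
  have s3 : ∑ j ∈ Finset.range c.d, c.sig^[c.d - j] a0 = 1 := by
    have b1 := Finset.sum_range_reflect (fun j => c.sig^[j + 1] a0) c.d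
    have b2 : ∑ j ∈ Finset.range c.d, c.sig^[c.d - j] a0 =
        ∑ j ∈ Finset.range c.d, c.sig^[c.d - 1 - j + 1] a0 := by
      refine Finset.sum_congr rfl fun j hj => ?_
      have := Finset.mem_range.1 hj
      rw [show c.d - 1 - j + 1 = c.d - j by omega]
    rw [b2, b1]
    have b3 : ∑ j ∈ Finset.range c.d, c.sig^[j + 1] a0 = c.sig (∑ j ∈ Finset.range c.d, c.sig^[j] a0) := by
      rw [map_sum]
      refine Finset.sum_congr rfl fun j _ => ?_
      rw [Function.iterate_succ_apply']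
    rw [b3, hsum, map_one]
  have s4 : c'.psi (e0 * c.emb a0 * c.emb (∑ j ∈ Finset.range c.d, c.sig^[j] z)) =
      c'.psi (e0 * c.emb z) := by
    have b1 : e0 * c.emb a0 * c.emb (∑ j ∈ Finset.range c.d, c.sig^[j] z) =
        ∑ j ∈ Finset.range c.d, e0 * c.emb a0 * c.emb (c.sig^[j] z) := by
      rw [map_sum, Finset.mul_sum]
    have b2 : e0 * c.emb z = ∑ j ∈ Finset.range c.d, e0 * c.emb (c.sig^[c.d - j] a0) * c.emb z := by
      rw [← Finset.sum_mul, ← Finset.mul_sum, ← map_sum, s3, map_one, mul_one]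
    rw [b1, b2, twk_sum, twk_sum]
    exact Finset.prod_congr rfl s2
  rw [s1, s4]
  have s5 : e * Z = e0 * Z' := by
    rw [hZZ', he0, mul_assoc]
  rw [s5]
  symm
  apply psi_congr
  rw [← mul_sub]
  exact P_mul' he0P (twk_co0 h1 c c' hT hP hZ'P) (by omega)

end Pool.Agent.Helper42.QC
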